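import Pool.Agent.PFD.StmtsD2

/-!
# PFD row EXX: existence of the deformation over a complete discrete valuation ring
-/

open scoped BigOperators

noncomputable section

namespace Pool.Agent.PFD.D2.H79

open MulOpposite
open Pool.Agent.PFC.B1 (BiM FS Sep RngStmt PenStmt)

theorem exx (hP : PlgStmt) (hL : LbgStmt) (hA : AlxStmt) (hR : RngStmt) : ExxStmt := by
  intro R F Γ Γ0 A X X0 K _ _ _ _ c _ _ _ _ _ _ _ _ _ _ _ _ _ _ f BX B0 g hlft sp0 _ sepA
  let algA : Algebra R A := RingHom.toAlgebra' ((algebraMap F A).comp c.κ) (by
    intro r x
    exact Algebra.commutes _ _)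
  have amA : ∀ r : R, algebraMap R A r = algebraMap F A (c.κ r) := fun r => rfl
  have smA : ∀ (r : R) (x : A), r • x = c.κ r • x := by
    intro r x
    rw [Algebra.smul_def, Algebra.smul_def, amA]
  let modX : Module R X0 := Module.compHom X0 c.κ
  have smX : ∀ (r : R) (x : X0), r • x = c.κ r • x := fun r x => rfl
  have hkπ : c.κ c.π = 0 := (c.ker c.π).2 ⟨1, by rw [mul_one]⟩
  -- the residue data
  let jj : Γ →ₐ[R] A :=
    { toRingHom := (sp0.j : Γ0 →+* A).comp f.q
      commutes' := by
        intro r
        show sp0.j (f.q (algebraMap R Γ r)) = _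
        rw [f.sc, AlgHom.commutes, amA] }
  have hjj : ∀ γ, jj γ = sp0.j (f.q γ) := fun γ => rfl
  let B0' : BiM R Γ X0 :=
    { lm :=
        { toFun := fun γ =>
            { toFun := fun x => B0.lm (f.q γ) x
              map_add' := fun x y => map_add _ x y
              map_smul' := fun r x => by
                show B0.lm (f.q γ) (c.κ r • x) = c.κ r • B0.lm (f.q γ) x
                exact map_smul _ _ _ }
          map_one' := by
            apply LinearMap.ext
            intro x
            show B0.lm (f.q 1) x = x
            rw [map_one, map_one]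
            rfl
          map_mul' := by
            intro a b
            apply LinearMap.ext
            intro x
            show B0.lm (f.q (a * b)) x = B0.lm (f.q a) (B0.lm (f.q b) x)
            rw [map_mul, map_mul]
            rfl
          map_zero' := by
            apply LinearMap.ext
            intro x
            show B0.lm (f.q 0) x = 0
            rw [map_zero, map_zero]
            rfl
          map_add' := by
            intro a b
            apply LinearMap.ext
            intro x
            show B0.lm (f.q (a + b)) x = B0.lm (f.q a) x + B0.lm (f.q b) x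
            rw [map_add, map_add]
            rfl
          commutes' := by
            intro r
            apply LinearMap.ext
            intro x
            show B0.lm (f.q (algebraMap R Γ r)) x = c.κ r • x
            rw [f.sc, AlgHom.commutes, Module.algebraMap_end_apply] }
      rm :=
        { toFun := fun γ =>
            { toFun := fun x => B0.rm (op (f.q γ.unop)) x
              map_add' := fun x y => map_add _ x y
              map_smul' := fun r x => by
                show B0.rm (op (f.q γ.unop)) (c.κ r • x) = c.κ r • B0.rm (op (f.q γ.unop)) x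
                exact map_smul _ _ _ }
          map_one' := by
            apply LinearMap.ext
            intro x
            show B0.rm (op (f.q (1 : Γᵐᵒᵖ).unop)) x = x
            rw [unop_one, map_one, op_one, map_one]
            rfl
          map_mul' := by
            intro a b
            apply LinearMap.ext
            intro x
            show B0.rm (op (f.q (a * b).unop)) x =
              B0.rm (op (f.q a.unop)) (B0.rm (op (f.q b.unop)) x)
            rw [unop_mul, map_mul, op_mul, map_mul]
            rfl
          map_zero' := by
            apply LinearMap.ext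
            intro x
            show B0.rm (op (f.q (0 : Γᵐᵒᵖ).unop)) x = 0
            rw [unop_zero, map_zero, op_zero, map_zero]
            rfl
          map_add' := by
            intro a b
            apply LinearMap.ext
            intro x
            show B0.rm (op (f.q (a + b).unop)) x =
              B0.rm (op (f.q a.unop)) x + B0.rm (op (f.q b.unop)) x
            rw [unop_add, map_add, op_add, map_add]
            rfl
          commutes' := by
            intro r
            apply LinearMap.ext
            intro x
            show B0.rm (op (f.q (algebraMap R Γᵐᵒᵖ r).unop)) x = c.κ r • x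
            rw [MulOpposite.algebraMap_apply, unop_op, f.sc]
            have h2 := B0.rm.commutes (c.κ r)
            rw [MulOpposite.algebraMap_apply] at h2
            rw [h2, Module.algebraMap_end_apply] }
      comm := fun a b x => B0.comm _ _ _ }
  have hlm : ∀ γ x, B0'.lm γ x = B0.lm (f.q γ) x := fun _ _ => rfl
  have hrm : ∀ (γ : Γ) x, B0'.rm (op γ) x = B0.rm (op (f.q γ)) x := fun _ _ => rfl
  let D : ResX Γ A X X0 c BX :=
    { j := jj
      hA := by rw [amA, hkπ, map_zero]
      hj := by
        intro γ h
        rw [hjj] at h
        have h2 : f.q γ = 0 := by rw [← sp0.pr_j (f.q γ), h, map_zero]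
        exact f.ker γ h2
      e :=
        { toFun := fun x => sp0.j (sp0.pr x)
          map_add' := fun x y => by rw [map_add, map_add]
          map_smul' := fun r x => by
            rw [smA, map_smul, map_smul, RingHom.id_apply, smA] }
      e1 := by
        intro x
        obtain ⟨γ, hγ⟩ := f.surj (sp0.pr x)
        refine ⟨γ, ?_⟩
        show sp0.j (sp0.pr x) = sp0.j (f.q γ)
        rw [hγ]
      e2 := by
        intro γ
        show sp0.j (sp0.pr (sp0.j (f.q γ))) = sp0.j (f.q γ)
        rw [sp0.pr_j]
      e3 := by
        intro γ x
        show sp0.j (sp0.pr (sp0.j (f.q γ) * x)) = sp0.j (f.q γ) * sp0.j (sp0.pr x)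
        rw [sp0.pr_l, map_mul]
      e4 := by
        intro γ x
        show sp0.j (sp0.pr (x * sp0.j (f.q γ))) = sp0.j (sp0.pr x) * sp0.j (f.q γ)
        rw [sp0.pr_r, map_mul]
      B0 := B0'
      s :=
        { toFun := fun x => g.s x
          map_add' := fun x y => map_add _ x y
          map_smul' := fun r x => g.sc r x }
      s1 := by
        constructor
        · intro γ x
          exact g.lm γ x
        · intro γ x
          exact g.rm γ.unop x
      s2 := g.surj
      s3 := by
        intro x
        constructor
        · intro h
          exact g.ker x h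
        · rintro ⟨y, rfl⟩
          show g.s (c.π • y) = 0
          rw [g.sc, hkπ, zero_smul]
      i0 :=
        { toFun := fun x => sp0.i x
          map_add' := fun x y => map_add _ x y
          map_smul' := fun r x => by
            rw [smA, map_smul, RingHom.id_apply, smX] }
      i1 := by
        intro γ x
        exact sp0.i1 _ _
      i2 := by
        intro γ x
        exact sp0.i2 _ _
      p0 :=
        { toFun := fun x => sp0.p x
          map_add' := fun x y => map_add _ x y
          map_smul' := fun r x => by
            rw [smX, map_smul, RingHom.id_apply, smA] }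
      p1 := by
        intro γ x
        exact sp0.p1 _ _
      p2 := by
        intro γ x
        exact sp0.p2 _ _
      ip := by
        intro x
        exact sp0.ip x }
  have hDj : ∀ γ, D.j γ = sp0.j (f.q γ) := fun _ => rfl
  have hDe : ∀ x, D.e x = sp0.j (sp0.pr x) := fun _ => rfl
  obtain ⟨P, _, _, _, _, ⟨L⟩⟩ := hP R F Γ A X X0 c BX D hlft
  let sepD : Sep Γ A K D.j.toRingHom :=
    { u := sepA.u
      v := sepA.v
      one := sepA.one
      bal := by
        intro Y _ B hB
        apply sepA.bal
        intro x γ0 y
        obtain ⟨γ, rfl⟩ := f.surj γ0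
        exact hB x γ y }
  have hB := hL R F Γ A X X0 P c BX D hlft L
  obtain ⟨β, hβ, has, hqq⟩ := hA R F Γ A X X0 K P c BX D sepD L hB
  obtain ⟨A', _, _, φ, φ1, φm⟩ := hR R Γ P L.toBiM β hβ has
  have finA' : Module.Finite R A' := Module.Finite.equiv φ
  have freeA' : Module.Free R A' := Module.Free.of_equiv φ
  refine ⟨A', _, _, finA', freeA', ⟨?_⟩⟩
  have φs : ∀ x y, φ.symm (x * y) = L.toBiM.mu β (φ.symm x) (φ.symm y) := by
    intro x y
    rw [LinearEquiv.symm_apply_eq, φm, LinearEquiv.apply_symm_apply,
      LinearEquiv.apply_symm_apply]
  have mu1 : ∀ (γ : Γ) (y : Γ × P), L.toBiM.mu β (γ, 0) y = (γ * y.1, L.lm γ y.2) := by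
    intro γ y
    simp [BiM.mu, Pool.Agent.PFC.B1.BiM.mu]
  have mu2 : ∀ (γ : Γ) (y : Γ × P), L.toBiM.mu β y (γ, 0) = (y.1 * γ, L.rm (op γ) y.2) := by
    intro γ y
    simp [Pool.Agent.PFC.B1.BiM.mu]
  let sp : SplitX A' BX :=
    { j :=
        { toFun := fun γ => φ (γ, 0)
          map_one' := φ1
          map_mul' := by
            intro a b
            rw [← φm, mu1]
            congr 2
            exact (map_zero _).symm
          map_zero' := by
            rw [show ((0 : Γ), (0 : P)) = 0 from rfl, map_zero]
          map_add' := by
            intro a b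
            rw [← map_add, Prod.mk_add_mk, add_zero]
          commutes' := by
            intro r
            rw [Algebra.algebraMap_eq_smul_one, Algebra.algebraMap_eq_smul_one (A := A'), ← φ1,
              ← map_smul, Prod.smul_mk, smul_zero] }
      pr :=
        { toFun := fun x => (φ.symm x).1
          map_add' := fun x y => by rw [map_add]; rfl
          map_smul' := fun r x => by rw [map_smul]; rfl }
      pr_j := by
        intro γ
        show (φ.symm (φ (γ, 0))).1 = γ
        rw [LinearEquiv.symm_apply_apply]
      pr_l := by
        intro γ x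
        show (φ.symm (φ (γ, 0) * x)).1 = γ * (φ.symm x).1
        rw [φs, LinearEquiv.symm_apply_apply, mu1]
      pr_r := by
        intro x γ
        show (φ.symm (x * φ (γ, 0))).1 = (φ.symm x).1 * γ
        rw [φs, LinearEquiv.symm_apply_apply, mu2]
      i :=
        { toFun := fun x => L.i (φ.symm x).2
          map_add' := fun x y => by
            rw [map_add φ.symm, Prod.snd_add, map_add]
          map_smul' := fun r x => by
            rw [map_smul φ.symm, Prod.smul_snd, map_smul]; rfl }
      i1 := by
        intro γ x
        show L.i (φ.symm (φ (γ, 0) * x)).2 = BX.lm γ (L.i (φ.symm x).2)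
        rw [φs, LinearEquiv.symm_apply_apply, mu1]
        exact L.i1.1 _ _
      i2 := by
        intro γ x
        show L.i (φ.symm (x * φ (γ, 0))).2 = BX.rm (op γ) (L.i (φ.symm x).2)
        rw [φs, LinearEquiv.symm_apply_apply, mu2]
        exact L.i1.2 _ _
      p :=
        { toFun := fun x => φ (0, L.p x)
          map_add' := fun x y => by
            rw [← map_add, Prod.mk_add_mk, add_zero, map_add]
          map_smul' := fun r x => by
            rw [RingHom.id_apply, ← map_smul φ, Prod.smul_mk, smul_zero, map_smul] }
      p1 := by
        intro γ x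
        show φ (0, L.p (BX.lm γ x)) = φ (γ, 0) * φ (0, L.p x)
        rw [← φm, mu1, mul_zero, L.p1.1]
      p2 := by
        intro γ x
        show φ (0, L.p (BX.rm (op γ) x)) = φ (0, L.p x) * φ (γ, 0)
        rw [← φm, mu2, zero_mul, L.p1.2]
      ip := by
        intro x
        show φ (0, L.p (L.i (φ.symm x).2)) = x - φ ((φ.symm x).1, 0)
        have h1 : L.p (L.i (φ.symm x).2) = (φ.symm x).2 :=
          LinearMap.congr_fun L.pi _
        rw [h1]
        have h2 : x = φ ((φ.symm x).1, (φ.symm x).2) := (LinearEquiv.apply_symm_apply φ x).symm
        rw [eq_sub_iff_add_eq, ← map_add, Prod.mk_add_mk, zero_add, add_zero]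
        exact h2.symm }
  have qq_mul : ∀ x y, L.qq (L.toBiM.mu β x y) = L.qq x * L.qq y := by
    intro x y
    have h1 : L.toBiM.mu β x y =
        (x.1 * y.1, L.lm x.1 y.2 + L.rm (op y.1) x.2) + β x.2 y.2 := rfl
    have hadd : ∀ a b : Γ × P, L.qq (a + b) = L.qq a + L.qq b := by
      intro a b
      show D.j (a.1 + b.1) + L.q (a.2 + b.2) = (D.j a.1 + L.q a.2) + (D.j b.1 + L.q b.2)
      rw [map_add, map_add]
      abel
    rw [h1, hadd, hqq]
    show D.j (x.1 * y.1) + L.q (L.lm x.1 y.2 + L.rm (op y.1) x.2) + L.q x.2 * L.q y.2 =
      (D.j x.1 + L.q x.2) * (D.j y.1 + L.q y.2)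
    rw [map_mul, map_add, L.q1, L.q2]
    noncomm_ring
  have hqs : ∀ (γ : Γ) (x : P), L.qq (γ, x) = sp0.j (f.q γ) + L.q x := fun _ _ => rfl
  let fb : FibG A' A c :=
    { q :=
        { toFun := fun x => L.qq (φ.symm x)
          map_one' := by
            rw [← φ1, LinearEquiv.symm_apply_apply, hqs, map_one, map_one, map_zero, add_zero]
          map_mul' := by
            intro x y
            rw [φs, qq_mul]
          map_zero' := by
            rw [map_zero]
            show D.j 0 + L.q 0 = 0
            rw [map_zero, map_zero, add_zero]
          map_add' := by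
            intro x y
            rw [map_add]
            show D.j ((φ.symm x).1 + (φ.symm y).1) + L.q ((φ.symm x).2 + (φ.symm y).2) =
              (D.j (φ.symm x).1 + L.q (φ.symm x).2) + (D.j (φ.symm y).1 + L.q (φ.symm y).2)
            rw [map_add, map_add]
            abel }
      sc := by
        intro r
        show L.qq (φ.symm (algebraMap R A' r)) = algebraMap F A (c.κ r)
        have h1 : algebraMap R A' r = φ (algebraMap R Γ r, 0) := (sp.j.commutes r).symm
        rw [h1, LinearEquiv.symm_apply_apply, hqs, map_zero, add_zero, f.sc, AlgHom.commutes]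
      surj := by
        intro a
        obtain ⟨γ, hγ⟩ := D.e1 a
        have h0 : D.e (a - D.e a) = 0 := by
          rw [map_sub, hγ, D.e2, sub_self]
        obtain ⟨x, hx⟩ := L.q4 _ h0
        refine ⟨φ (γ, x), ?_⟩
        show L.qq (φ.symm (φ (γ, x))) = a
        rw [LinearEquiv.symm_apply_apply]
        show D.j γ + L.q x = a
        rw [hx, ← hγ]
        abel
      ker := by
        intro x hx
        have hx' : D.j (φ.symm x).1 + L.q (φ.symm x).2 = 0 := hx
        have h1 : D.j (φ.symm x).1 = 0 := by
          have h2 : D.e (D.j (φ.symm x).1 + L.q (φ.symm x).2) = 0 := by rw [hx', map_zero]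
          rw [map_add, D.e2, L.q3, add_zero] at h2
          exact h2
        have h3 : L.q (φ.symm x).2 = 0 := by rw [h1, zero_add] at hx'; exact hx'
        obtain ⟨γ', hγ'⟩ := D.hj _ h1
        obtain ⟨y, hy⟩ := (L.q5 _).1 h3
        refine ⟨φ (γ', y), ?_⟩
        rw [← map_smul, Prod.smul_mk, ← hγ', ← hy]
        exact (LinearEquiv.apply_symm_apply φ x).symm }
  exact
    { sp := sp
      fb := fb
      cj := by
        intro γ
        show L.qq (φ.symm (φ (γ, 0))) = sp0.j (f.q γ)
        rw [LinearEquiv.symm_apply_apply, hqs, map_zero, add_zero]
      cp := by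
        intro x
        show sp0.pr (D.j (φ.symm x).1 + L.q (φ.symm x).2) = f.q (φ.symm x).1
        have h1 : sp0.pr (L.q (φ.symm x).2) = 0 := by
          have h2 : sp0.j (sp0.pr (L.q (φ.symm x).2)) = 0 := L.q3 _
          rw [← sp0.pr_j (sp0.pr (L.q (φ.symm x).2)), h2, map_zero]
        rw [map_add, h1, add_zero, hDj, sp0.pr_j] }

end Pool.Agent.PFD.D2.H79
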