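import Pool.Agent.PFD.StmtsD6b

/-!
# PFD row RET: the functional of the retraction
-/

open scoped BigOperators

noncomputable section

namespace Pool.Agent.PFD.D6.H79

open Pool.Agent.PFC
open Pool.Agent.PFC.B5a (FvtStmt TrsStmt BkiStmt FdbStmt Du)

/-- translations of functions on `V × E` -/
def tra (F V E : Type) [Field F] [CommGroup V] :
    V →* ((V × E → F) →ₗ[F] (V × E → F)) where
  toFun u :=
    { toFun := fun k p => k (u⁻¹ * p.1, p.2)
      map_add' := fun _ _ => rfl
      map_smul' := fun _ _ => rfl }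
  map_one' := by
    apply LinearMap.ext
    intro k
    funext p
    show k (1⁻¹ * p.1, p.2) = k p
    rw [inv_one, one_mul]
  map_mul' := by
    intro u v
    apply LinearMap.ext
    intro k
    funext p
    show k ((u * v)⁻¹ * p.1, p.2) = k (v⁻¹ * (u⁻¹ * p.1), p.2)
    rw [mul_inv_rev, mul_assoc]

theorem li_gg (hF : FvtStmt) (hCh : ChsStmt) (F V E A : Type) [Field F]
    [CommGroup V] [Fintype V] [Group E] [Fintype E] [Ring A] [Algebra F A]
    (ℓ : ℕ) [CharP F ℓ] (φ : E →* MulAut V) (W : Subgroup V)
    (α : V →* A) (n n' : E → A) (c : E → E → F) (mu : A →ₗ[F] F)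
    (hC : Ctf ℓ φ W) (hU : Unt φ α n n' c) (hM : Frm F α mu) :
    LinearIndependent F (gg α n) := by
  classical
  have : Fact ℓ.Prime := ⟨hC.pr⟩
  have : Nontrivial A := by
    by_contra h
    rw [not_nontrivial_iff_subsingleton] at h
    exact hM.nz (by rw [Subsingleton.elim (∑ u, α u) 0, map_zero])
  let L : (V × E → F) →ₗ[F] A :=
    { toFun := fun k => ∑ p, k p • gg α n p
      map_add' := fun k k' => by
        rw [← Finset.sum_add_distrib]
        apply Finset.sum_congr rfl
        intro p _
        rw [Pi.add_apply, add_smul]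
      map_smul' := fun r k => by
        rw [RingHom.id_apply, Finset.smul_sum]
        apply Finset.sum_congr rfl
        intro p _
        rw [Pi.smul_apply, smul_eq_mul, mul_smul] }
  have hL : ∀ k, L k = ∑ p, k p • gg α n p := fun _ => rfl
  have htr : ∀ u k, L (tra F V E u k) = α u * L k := by
    intro u k
    rw [hL, hL, Finset.mul_sum]
    have h1 := Equiv.sum_comp (Equiv.prodCongr (Equiv.mulLeft u) (Equiv.refl E))
      (fun p => (tra F V E u k) p • gg α n p)
    rw [← h1]
    apply Finset.sum_congr rfl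
    intro p _
    show k (u⁻¹ * (u * p.1), p.2) • (α (u * p.1) * n p.2) = α u * (k p • (α p.1 * n p.2))
    rw [inv_mul_cancel_left, map_mul, mul_smul_comm, mul_assoc]
  have hN : LinearMap.ker L = ⊥ := by
    by_contra hne
    obtain ⟨k, hk, hk0, hfx⟩ := hF ℓ F V (V × E → F) (tra F V E) (LinearMap.ker L) hC.pg
      (fun u k hk => by
        rw [LinearMap.mem_ker] at hk ⊢
        rw [htr, hk, mul_zero]) hne
    have hk1 : ∀ v e, k (v, e) = k (1, e) := by
      intro v e
      have h1 : tra F V E v k = k := hfx v trivial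
      have h2 : k (v⁻¹ * v, e) = k (v, e) := congrFun h1 (v, e)
      rw [inv_mul_cancel] at h2
      exact h2.symm
    obtain ⟨f, hf⟩ : ∃ f, k (1, f) ≠ 0 := by
      by_contra h
      apply hk0
      funext p
      obtain ⟨v, e⟩ := p
      rw [hk1]
      by_contra h2
      exact h ⟨e, h2⟩
    rw [LinearMap.mem_ker, hL, Fintype.sum_prod_type] at hk
    have h3 : ∑ e, k (1, e) * mu ((∑ v, α v) * (n e * n' f)) = 0 := by
      have h4 : mu ((∑ v, ∑ e, k (v, e) • gg α n (v, e)) * n' f) = 0 := by
        rw [hk, zero_mul, map_zero]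
      rw [Finset.sum_comm, Finset.sum_mul, map_sum] at h4
      rw [← h4]
      apply Finset.sum_congr rfl
      intro e _
      have h5 : (∑ v, k (v, e) • gg α n (v, e)) * n' f =
          k (1, e) • ((∑ v, α v) * (n e * n' f)) := by
        rw [Finset.sum_mul, Finset.sum_mul, Finset.smul_sum]
        apply Finset.sum_congr rfl
        intro v _
        rw [hk1]
        show k (1, e) • (α v * n e) * n' f = _
        rw [smul_mul_assoc, mul_assoc]
      rw [h5, map_smul, smul_eq_mul]
    have h6 : ∀ e, e ≠ f → k (1, e) * mu ((∑ v, α v) * (n e * n' f)) = 0 := by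
      intro e he
      have h7 : n (e * f⁻¹) = c (e * f⁻¹) f • (n e * n' f) := by
        have h8 := hU.mul (e * f⁻¹) f
        rw [inv_mul_cancel_right] at h8
        rw [← smul_mul_assoc, ← h8, mul_assoc, hU.ri, mul_one]
      have h9 : c (e * f⁻¹) f ≠ 0 := by
        intro h0
        rw [h0, zero_smul] at h7
        have h10 := hU.li (e * f⁻¹)
        rw [h7, mul_zero] at h10
        exact zero_ne_one h10
      have h11 : n e * n' f = (c (e * f⁻¹) f)⁻¹ • n (e * f⁻¹) := by
        rw [h7, smul_smul, inv_mul_cancel₀ h9, one_smul]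
      have h12 : e * f⁻¹ ≠ 1 := by
        intro h0
        exact he (mul_inv_eq_one.1 h0)
      have h13 := (hCh F V E A ℓ φ W α n n' c mu hC hU hM.sym (e * f⁻¹) h12).2
      rw [h11, mul_smul_comm, map_smul, Finset.sum_mul, map_sum, h13, smul_zero, mul_zero]
    rw [Finset.sum_eq_single f (fun e _ he => h6 e he)
      (fun h => absurd (Finset.mem_univ _) h), hU.ri, mul_one] at h3
    rcases mul_eq_zero.1 h3 with h | h
    · exact hf h
    · exact hM.nz h
  rw [Fintype.linearIndependent_iff]
  intro k hk p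
  have h1 : k ∈ LinearMap.ker L := by
    rw [LinearMap.mem_ker, hL]
    exact hk
  rw [hN, Submodule.mem_bot] at h1
  rw [h1]
  rfl

theorem ret : RetStmt := by
  classical
  intro hF hCh hP F V E A _ _ _ _ _ _ _ _ ℓ _ φ W α n n' c mu S c' hC hU hM hT hα hn hc
  have hli := li_gg hF hCh F V E A ℓ φ W α n n' c mu hC hU hM
  obtain ⟨hES, hEl, hEr, -, -, -⟩ := hP F A (V × E) S (gg α n) (gg' α n') mu c' hT hM.sym hc
  have h5 : ∀ x, Ev F (gg α n) (gg' α n') mu x * c' =
      ∑ p, mu (gg' α n' p * x * c') • gg α n p := by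
    intro x
    rw [← hEr c' hc.mem]
    show ∑ p, mu (gg' α n' p * (x * c')) • gg α n p = _
    apply Finset.sum_congr rfl
    intro p _
    rw [mul_assoc]
  have hg : ∀ q, gg α n q ∈ S := fun q => S.mul_mem (hα _) (hn _)
  have h6 : ∀ q, ∑ p, mu (gg' α n' p * gg α n q * c') • gg α n p = gg α n q := by
    intro q
    rw [← h5]
    have h7 := hEl (gg α n q) (hg q) 1
    rw [mul_one] at h7
    rw [h7, mul_assoc, hc.rin, mul_one]
  have h8 : ∀ q p, mu (gg' α n' p * gg α n q * c') = if p = q then 1 else 0 := by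
    intro q
    rw [Fintype.linearIndependent_iff] at hli
    have h9 : ∑ p, (mu (gg' α n' p * gg α n q * c') - if p = q then 1 else 0) • gg α n p = 0 := by
      have h10 : ∀ p, (mu (gg' α n' p * gg α n q * c') - if p = q then 1 else 0) • gg α n p =
          mu (gg' α n' p * gg α n q * c') • gg α n p -
            (if p = q then (1 : F) else 0) • gg α n p := fun p => sub_smul _ _ _
      rw [Finset.sum_congr rfl (fun p _ => h10 p), Finset.sum_sub_distrib, h6,
        Finset.sum_eq_single q (fun p _ hp => by rw [if_neg hp, zero_smul])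
          (fun h => absurd (Finset.mem_univ _) h), if_pos rfl, one_smul, sub_self]
    intro p
    exact sub_eq_zero.1 (hli _ h9 p)
  refine ⟨hli, ?_, ?_, ?_, h5⟩
  · intro p
    rw [h8, if_pos rfl]
  · intro p q hpq
    rw [h8, if_neg hpq]
  · intro s hs a
    rw [mul_assoc s a c', hM.sym s (a * c'), mul_assoc a c' s, hc.com s hs, ← mul_assoc]

end Pool.Agent.PFD.D6.H79
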