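import Pool.Agent.Helper79_PFD.TXT
import Pool.Agent.Helper79_PFD.RET
import Pool.Agent.Helper84_PFD.UNT
import Pool.Agent.Helper6_PFD.QWF
import Pool.Agent.Helper6_PFD.TGT
import Pool.Agent.Helper6_PFD.PRJ
import Pool.Agent.Helper6_PFD.CAT
import Pool.Agent.Helper81_PFD.COC
import Pool.Agent.Helper59_PFD.CHS
import Pool.Agent.Helper30_PFD.COT
import Pool.Agent.Helper33_PFD.OMT
import Pool.Agent.Helper33_PFD.SPT
import Pool.Agent.Helper47_PFD.ORB
import Pool.Agent.Helper47_PFD.HTW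
import Pool.Agent.Helper62_PFD.ALT
import Pool.Agent.Helper65_PFD.AVE
import Pool.Agent.Helper32_PFD.CPJ
import Pool.Agent.PFC.B4.Psx_h10
import Pool.Agent.Helper41_PFC.PSM
import Pool.Agent.Helper41_PFC.FDB
import Pool.Agent.Helper77_PFC.TRSa
import Pool.Agent.PFC.B5.FVTa
import Pool.Agent.PFC.B5.CUG_49

/-!
# PFD, block D6: the top statement, without hypotheses
-/

namespace Pool.Agent.PFD.D6.H79

open Pool.Agent.PFC

theorem txt_top : TxtStmt :=
  txt H84.unt (H6.qwf Pool.Agent.PFC.H10.psx Pool.Agent.PFC.H41.psm)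
    Pool.Agent.PFC.B5a.H46.fvt Pool.Agent.PFC.B5a.H77.trs Pool.Agent.PFC.H49d.bki
    Pool.Agent.PFC.B5a.H41.fdb H81.coc H6.tgt H59.chs H30.cot H6.prj ret H33.omt H47.orb
    H62.alt H65.ave H6.cat H81.unl H33.spt H81.cvs H47.htw H32.cpj

end Pool.Agent.PFD.D6.H79
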