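import Pool.Agent.PFD.StmtsD6b

/-!
# PFD row TXT: the top of block D6, from the rows
-/

open scoped BigOperators

noncomputable section

namespace Pool.Agent.PFD.D6.H79

open Pool.Agent.PFC
open Pool.Agent.PFC.B5a (FvtStmt TrsStmt BkiStmt FdbStmt Du)

theorem txt : TxtRow := by
  classical
  intro hUnt hQwf hFvt hTrs hBki hFdb hCoc hTgt hChs hCot hPrj hRet hOmt hOrb hAlt hAve hCat
    hUnl hSpt hCvs hHtw hCpj F V E A _ _ _ _ _ _ _ _ ℓ _ φ W α hC hM
  have hfin : FiniteDimensional F A := hM.fin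
  obtain ⟨n, n', c, hU⟩ := hUnt F V E A ℓ φ W α hC hM
  have hnt : Nontrivial A := by
    by_contra h
    rw [not_nontrivial_iff_subsingleton] at h
    apply hM.one
    rw [Subsingleton.elim (1 : A) 0]
    exact Submodule.zero_mem _
  obtain ⟨z, hz⟩ := hCoc F V E A φ α n n' c hU
  have hcz : c = fun e f => (z.c e f : F) := by
    funext e f
    exact (hz e f).symm
  subst hcz
  obtain ⟨mu, hmu⟩ := hM.frm
  obtain ⟨S, hT, hα, hn⟩ := hTgt F V E A φ α n n' _ hU
  obtain ⟨c', hc⟩ := hCot hFvt hChs F V E A ℓ φ W α n n' _ mu S hC hU hmu.sym hmu.nz hT hα hn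
  obtain ⟨hES, hEl, hEr, hEsym, hEmu, q, hq, hqq, hql, hqr, hqS⟩ :=
    hPrj F A (V × E) S (gg α n) (gg' α n') mu c' hT hmu.sym hc
  obtain ⟨hli, -, -, -, hEx⟩ := hRet hFvt hChs hPrj F V E A ℓ φ W α n n' _ mu S c' hC hU hmu hT
    hα hn hc
  obtain ⟨Ω, _, _, b, d, hb, hd, hsum, hst⟩ := hQwf F V E A ℓ φ W α n n' _ q hC hU hM.ps hM.spn
    hqq (fun u x => hql _ (hα u) x) (fun u x => hqr _ (hα u) x)
    (fun e u => hqS _ (S.mul_mem (hn e) (hα u)))
  have hFq : Fq F φ W α q b d := ⟨hb, hd, hsum, hst⟩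
  have hW : W ≠ ⊤ := by
    intro h
    obtain ⟨u, hu⟩ := hC.nt
    apply hu
    rw [h]
    trivial
  have hcard : (Nat.card E : F) ≠ 0 := by
    intro h
    exact hC.cop ((CharP.cast_eq_zero_iff F ℓ _).1 h)
  obtain ⟨al, hal, halB⟩ := hAlt hOmt hTrs F V E A Ω φ W α mu q b d hW hmu.sym hmu.nd hFq
  have hAL := hAve F V E A φ α n n' _ q al hU hcard (fun e x => hqr _ (hn e) x) hal
  obtain ⟨m, b0, b0', hDu, -⟩ := hFdb F A mu hmu.sym hmu.nd
  generalize hal' : ((Nat.card E : F)⁻¹ • al : A →ₗ[F] A) = al' at hAL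
  obtain ⟨hc1, hc2, hCs⟩ := hCat hPrj F A (V × E) S (gg α n) (gg' α n') mu c' al' m b0 b0' hT
    hmu.sym hmu.nd hc (fun x => by rw [hAL x, hq]) hDu
  have hB' : ∀ ζ : A, (∀ u, ζ * α u = α u * ζ) →
      ∑ k, al' (b0 k) * ζ * b0' k ∈ BK (cj F α) ⊤ := by
    intro ζ hζ
    have h1 : ∑ k, al' (b0 k) * ζ * b0' k =
        (Nat.card E : F)⁻¹ • ∑ k, al (b0 k) * ζ * b0' k := by
      rw [Finset.smul_sum]
      apply Finset.sum_congr rfl
      intro k _
      rw [← hal', LinearMap.smul_apply, smul_mul_assoc, smul_mul_assoc]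
    rw [h1]
    exact Submodule.smul_mem _ _ (halB m b0 b0' hDu ζ hζ)
  obtain ⟨⟨ρ, hρ, hρ1, hρC⟩, hun⟩ := hSpt hUnl F V A (V × E) S (gg α n) (gg' α n') mu c' al' m
    b0 b0' α hα hc (hES 1) hM.loc hM.one hB' hCs
  -- the retraction
  have hr : ∀ x, (LinearMap.id - q : A →ₗ[F] A) x = Ev F (gg α n) (gg' α n') mu x * c' := by
    intro x
    rw [LinearMap.sub_apply, LinearMap.id_apply, hq]
    abel
  obtain ⟨j, pr, hjv, hjn, hjni, hjS, hjinj, hprj, hprl, hprr, hjpr⟩ :=
    hCpj F V E A φ α n n' z (mu.comp (LinearMap.mulRight F c')) S (LinearMap.id - q) hU hT hli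
      (fun x => by
        rw [hr, hEx]
        rfl)
      (fun s hs => by
        rw [LinearMap.sub_apply, LinearMap.id_apply, hqS s hs, sub_zero])
      (fun s hs x => by
        rw [LinearMap.sub_apply, LinearMap.id_apply, hql s hs, LinearMap.sub_apply,
          LinearMap.id_apply, mul_sub])
      (fun s hs x => by
        rw [LinearMap.sub_apply, LinearMap.id_apply, hqr s hs, LinearMap.sub_apply,
          LinearMap.id_apply, sub_mul])
  have hjE : ∀ x, j (pr x) = Ev F (gg α n) (gg' α n') mu x * c' := fun x => by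
    rw [hjpr, hr]
  obtain ⟨sep⟩ := hCvs F (CP (D0 φ z)) A (Option (Fin m)) S j
    (fun k : Option (Fin m) => k.elim c' (fun k => al' (b0 k)))
    (fun k : Option (Fin m) => k.elim 1 b0' * ρ) hjS hρ1 hρC
  obtain ⟨Om, fOm, aOm, mm, τ, hm, hτ, hTW⟩ := hHtw hOrb F V E A Ω φ W α n n' _ q b d hU hcard
    (fun e x => hql _ (hn e) x) (fun e x => hqr _ (hn e) x) hFq
  -- `Ev 1 * s * c' = s`
  have hs1 : ∀ s ∈ S, Ev F (gg α n) (gg' α n') mu 1 * s * c' = s := by
    intro s hs
    rw [mul_assoc, ← hc.com s hs, ← mul_assoc, hc.rin, one_mul]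
  refine ⟨z, ⟨
    { j := j
      pr := pr
      pr_j := hprj
      pr_l := hprl
      pr_r := hprr
      fin := hfin
      mu := mu
      mus := hmu.sym
      mun := hmu.nd
      orth := fun x => by rw [hjE, hEmu]
      K := Option (Fin m)
      fK := inferInstance
      sep := sep
      N := Option (Fin m)
      fN := inferInstance
      x := fun k => k.elim c' (fun k => al' (b0 k))
      y := fun k => Ev F (gg α n) (gg' α n') mu 1 * k.elim 1 b0'
      e1 := ?_
      e2 := ?_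
      unt := ?_
      Om := Om
      fOm := fOm
      aOm := aOm
      m := mm
      τ := τ
      m_eq := ?_
      τ_eq := ?_
      hw := ?_ }⟩⟩
  · intro a
    have h1 : ∀ k : Option (Fin m), k.elim c' (fun k => al' (b0 k)) *
        j (pr (Ev F (gg α n) (gg' α n') mu 1 * k.elim 1 b0' * a)) =
        k.elim c' (fun k => al' (b0 k)) * Ev F (gg α n) (gg' α n') mu (k.elim 1 b0' * a) := by
      intro k
      rw [hjE, mul_assoc (Ev F (gg α n) (gg' α n') mu 1), hEl _ (hES 1), hs1 _ (hES _)]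
    rw [Finset.sum_congr rfl (fun k _ => h1 k)]
    exact hc1 a
  · intro a
    have h1 : ∀ k : Option (Fin m), j (pr (a * k.elim c' (fun k => al' (b0 k)))) *
        (Ev F (gg α n) (gg' α n') mu 1 * k.elim 1 b0') =
        Ev F (gg α n) (gg' α n') mu (a * k.elim c' (fun k => al' (b0 k))) *
          k.elim 1 b0' := by
      intro k
      rw [hjE, ← mul_assoc, mul_assoc _ c', hc.lin, mul_one]
    rw [Finset.sum_congr rfl (fun k _ => h1 k)]
    exact hc2 a
  · intro w hw hwu
    obtain ⟨⟨w, w', h1, h2⟩, rfl⟩ := hwu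
    have h3 := hun (j w) (j w') (fun s hs => by
      obtain ⟨γ, rfl⟩ := (hjS s).1 hs
      rw [← map_mul, ← map_mul]
      exact congrArg j (hw γ)) (by rw [← map_mul, h1, map_one])
      (by rw [← map_mul, h2, map_one])
    exact h3
  · intro w ω
    rw [hjv, hjv]
    exact hm w ω
  · intro w ω a
    rw [hjv, hjv]
    exact hτ w ω a
  · intro T hT' a
    have h1 := hTW T hT' a
    have h2 : a - j (pr a) = q a := by
      rw [hjpr, LinearMap.sub_apply, LinearMap.id_apply]
      abel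
    rw [h2, ← h1]
    apply Finset.sum_congr rfl
    intro h _
    apply Finset.sum_congr rfl
    intro t _
    apply Finset.sum_congr rfl
    intro g _
    apply Finset.sum_congr rfl
    intro v _
    apply Finset.sum_congr rfl
    intro ω _
    rw [map_mul j, map_mul j, map_mul j, map_mul j, hjv, hjv, hjv, hjv, hjn, hjn, hjni, hjni]

end Pool.Agent.PFD.D6.H79
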